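import Pool.Agent.helper54.V3.SpecT
import Pool.Agent.helper52.MP.NG

/-!
# Project v3, module KO2 (growth of a normalised injective function)
-/

set_option autoImplicit false

namespace V3

open Complex Metric Set Filter Topology MeasureTheory

/-- a normalised injective function omits a value in the disc of radius two -/
theorem KO2_omit (hKO0 : KO0_stmt) {F : ℂ → ℂ} (hF : DifferentiableOn ℂ F (ball 0 1))
    (hinj : InjOn F (ball 0 1)) (h0 : F 0 = 0) (h1 : deriv F 0 = 1) :
    ∃ w ∈ ball (0 : ℂ) 2, ∀ u ∈ ball (0 : ℂ) 1, F u ≠ w := by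
  by_contra hcon
  push Not at hcon
  choose! g hg1 hg2 using hcon
  have hgF : ∀ x ∈ ball (0 : ℂ) 1, F x ∈ ball (0 : ℂ) 2 → g (F x) = x := by
    intro x hx hFx
    exact hinj (hg1 _ hFx) hx (hg2 _ hFx)
  have h00 : (0 : ℂ) ∈ ball (0 : ℂ) 1 := mem_ball_self one_pos
  have h02 : (0 : ℂ) ∈ ball (0 : ℂ) 2 := mem_ball_self two_pos
  have hder : ∀ w ∈ ball (0 : ℂ) 2, HasDerivAt g (deriv F (g w))⁻¹ w := by
    intro w hw
    have ha := hg1 w hw
    have hFw := hg2 w hw
    have han : AnalyticAt ℂ F (g w) := hF.analyticAt (isOpen_ball.mem_nhds ha)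
    have hne : deriv F (g w) ≠ 0 := hKO0 F (ball 0 1) isOpen_ball hF hinj _ ha
    have hst : HasStrictDerivAt F (deriv F (g w)) (g w) := han.hasStrictDerivAt
    have hmap : Filter.map F (𝓝 (g w)) = 𝓝 w := by
      rw [hst.map_nhds_eq hne, hFw]
    have hcont : ContinuousAt g w := by
      have e1 : Tendsto (g ∘ F) (𝓝 (g w)) (𝓝 (g w)) := by
        refine Tendsto.congr' ?_ tendsto_id
        have e2 : ∀ᶠ x in 𝓝 (g w), x ∈ ball (0 : ℂ) 1 := isOpen_ball.mem_nhds ha
        have e3 : ∀ᶠ x in 𝓝 (g w), F x ∈ ball (0 : ℂ) 2 :=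
          han.continuousAt.eventually (by rw [hFw]; exact isOpen_ball.mem_nhds hw)
        filter_upwards [e2, e3] with x hx hx'
        exact (hgF x hx hx').symm
      have e4 : Tendsto g (Filter.map F (𝓝 (g w))) (𝓝 (g w)) := by
        rw [tendsto_map'_iff]
        exact e1
      rw [hmap] at e4
      exact e4
    refine HasDerivAt.of_local_left_inverse hcont hst.hasDerivAt hne ?_
    filter_upwards [isOpen_ball.mem_nhds hw] with y hy
    exact hg2 y hy
  have hg0 : g 0 = 0 := by
    have := hgF 0 h00 (by rw [h0]; exact h02)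
    rw [h0] at this
    exact this
  have hd0 : deriv g 0 = 1 := by
    have := (hder 0 h02).deriv
    rw [hg0, h1, inv_one] at this
    exact this
  have hdiff : DifferentiableOn ℂ g (ball 0 2) := fun w hw =>
    (hder w hw).differentiableAt.differentiableWithinAt
  have hsch := Complex.norm_deriv_le_div_of_mapsTo_ball (R₂ := 1) hdiff
    (by rw [hg0]; exact fun w hw => ball_subset_closedBall (hg1 w hw)) (by norm_num)
  rw [hd0] at hsch
  norm_num at hsch

theorem KO2 (hKO0 : KO0_stmt) : KO2_stmt := by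
  intro η hη hη1
  have hρ : 1 - η < 1 := by linarith
  obtain ⟨M, hM⟩ : ∃ M, M = Real.exp (2 * Real.exp (4000 / (1 - (1 - η)))) := ⟨_, rfl⟩
  have hM0 : 0 < M := by rw [hM]; exact Real.exp_pos _
  refine ⟨2 * (1 + M), by linarith, ?_⟩
  intro F hF hinj h0 h1 u hu
  obtain ⟨w, hw, hom⟩ := KO2_omit hKO0 hF hinj h0 h1
  have h00 : (0 : ℂ) ∈ ball (0 : ℂ) 1 := mem_ball_self one_pos
  have hw0 : w ≠ 0 := fun h => hom 0 h00 (by rw [h0, h])
  have hGd : DifferentiableOn ℂ (fun z => 1 - F z / w) (ball 0 1) :=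
    (differentiableOn_const 1).sub (hF.div_const w)
  have hu' : ‖u‖ ≤ 1 - η := by simpa using hu
  have hc := MPS.NG_core hGd
    (by
      intro z hz h
      apply hom z hz
      have h2 : F z / w = 1 := (sub_eq_zero.mp h).symm
      rwa [div_eq_one_iff_eq hw0] at h2)
    (by simp [h0])
    (by
      intro z hz h
      have h2 : F z / w = 0 := by
        have : (1 : ℂ) - F z / w = 1 := h
        linear_combination -this
      rw [div_eq_zero_iff] at h2
      have h3 : F z = 0 := h2.resolve_right hw0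
      exact hinj hz h00 (by rw [h3, h0]))
    hρ u hu'
  rw [← hM] at hc
  have e : F u = w * (1 - (1 - F u / w)) := by
    field_simp
    ring
  rw [e, norm_mul]
  have hw2 : ‖w‖ ≤ 2 := by
    have : ‖w‖ < 2 := by simpa using hw
    exact this.le
  have h3 : ‖(1 : ℂ) - (1 - F u / w)‖ ≤ 1 + M := by
    refine (norm_sub_le _ _).trans ?_
    rw [norm_one]
    linarith
  exact mul_le_mul hw2 h3 (norm_nonneg _) (by norm_num)

end V3
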