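import Pool.Agent.helper54.V3.SpecE

/-!
# Project v3, module FEND (end of the finite case)
-/

set_option autoImplicit false

namespace V3

open Complex Metric Set Filter Topology MeasureTheory

theorem FEND_cont (Pf : Finset ℂ) : Continuous fun x : ℂ => ∏ p ∈ Pf, (x - p) :=
  continuous_finsetProd _ fun _ _ => continuous_id.sub continuous_const

theorem FEND (hFQ0 : FQ0_stmt) (hVB1 : VB1_stmt) (hFRAT : FRAT_stmt) (hSQC : SQC_stmt)
    (hFLAG : FLAG_stmt) (hPCO : PCO_stmt) : FEND_stmt := by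
  intro P A g B v q θ hL hfin
  have hq := hFQ0 P A g B v q θ hL hfin
  have hvB := hVB1 P A g B v q θ hL hq
  obtain ⟨Pf, hPf⟩ : ∃ Pf : Finset ℂ, P = ↑Pf := ⟨hfin.toFinset, hfin.coe_toFinset.symm⟩
  obtain ⟨N, hN0, -, hNp, hB⟩ := hFRAT P A g B v q θ Pf hL hPf
  obtain ⟨s0, hs0, hsep⟩ := hL.sep
  obtain ⟨-, -, hpre⟩ := hPCO P s0 hs0 hsep
  have hdense : Dense Pᶜ := hfin.countable.dense_compl ℂ
  have hmem : ∀ x, x ∉ P ↔ x ∉ Pf := by
    intro x
    rw [hPf]
    simp
  have hvc : Continuous v := hL.vd.continuous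
  -- the product
  obtain ⟨Q, hQ⟩ : ∃ Q : ℂ → ℂ, Q = fun x => ∏ p ∈ Pf, (x - p) := ⟨_, rfl⟩
  have hQc : Continuous Q := by rw [hQ]; exact FEND_cont Pf
  have hQ0 : ∀ x, x ∉ P → Q x ≠ 0 := by
    intro x hx
    rw [hQ]
    simp only
    rw [Finset.prod_ne_zero_iff]
    intro p hp h
    rw [hmem] at hx
    apply hx
    rw [sub_eq_zero.mp h]
    exact hp
  have hvN : ∀ x, v x ^ 2 * N.eval x = Q x ^ 2 := by
    have h1 : EqOn (fun x => v x ^ 2 * N.eval x) (fun x => Q x ^ 2) Pᶜ := by
      intro x hx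
      have h2 := hvB x hx
      rw [hB x ((hmem x).mp hx), Finset.prod_pow] at h2
      have h3 : (∏ p ∈ Pf, (x - p)) = Q x := by rw [hQ]
      rw [h3] at h2
      have h4 := hQ0 x hx
      simp only
      field_simp at h2
      exact h2
    have h2 := Continuous.ext_on hdense ((hvc.pow 2).mul N.continuous) (hQc.pow 2) h1
    intro x
    exact congrFun h2 x
  have hroot : ∀ z, N.eval z ≠ 0 := by
    intro z hz
    have h1 := hvN z
    rw [hz, mul_zero] at h1
    have h2 : Q z = 0 := by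
      rcases eq_or_ne (Q z) 0 with h | h
      · exact h
      · exact absurd h1.symm (pow_ne_zero 2 h)
    by_cases hzP : z ∈ P
    · rw [hPf] at hzP
      exact hNp z hzP hz
    · exact hQ0 z hzP h2
  have hdeg : N.degree ≤ 0 := by
    by_contra h
    obtain ⟨z, hz⟩ := Complex.exists_root (not_le.mp h)
    exact hroot z hz
  have hNC := Polynomial.eq_C_of_degree_le_zero hdeg
  obtain ⟨n0, hn0⟩ : ∃ n0, n0 = N.coeff 0 := ⟨_, rfl⟩
  rw [← hn0] at hNC
  have hNe : ∀ x, N.eval x = n0 := by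
    intro x
    rw [hNC, Polynomial.eval_C]
  have hn0' : n0 ≠ 0 := by
    intro h
    exact hroot 0 (by rw [hNe, h])
  obtain ⟨s, hs⟩ := IsAlgClosed.exists_pow_nat_eq (1 / n0) (show 0 < 2 by norm_num)
  have hs' : s ≠ 0 := by
    intro h
    rw [h] at hs
    have : (1 / n0) ≠ 0 := one_div_ne_zero hn0'
    apply this
    rw [← hs]
    norm_num
  obtain ⟨e, he, hve⟩ := hSQC Pᶜ v (fun x => s * Q x) hpre hvc.continuousOn
    (continuous_const.mul hQc).continuousOn (fun x hx => mul_ne_zero hs' (hQ0 x hx))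
    (fun x hx => by
      have h1 := hvN x
      rw [hNe] at h1
      rw [mul_pow, hs, ← h1]
      field_simp)
  obtain ⟨c, hc⟩ : ∃ c, c = e * s := ⟨_, rfl⟩
  have hvc' : ∀ x, v x = c * Q x := by
    have h1 : EqOn v (fun x => c * Q x) Pᶜ := by
      intro x hx
      rw [hve x hx, hc]
      ring
    have h2 := Continuous.ext_on hdense hvc (continuous_const.mul hQc) h1
    intro x
    exact congrFun h2 x
  -- derivatives at the poles
  have hder : ∀ p ∈ Pf, c * ∏ p' ∈ Pf.erase p, (p - p') = 1 := by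
    intro p hp
    have h1 := (hL.v0 p (by rw [hPf]; exact hp)).2
    have h2 : v = fun x => c * ((x - p) * ∏ p' ∈ Pf.erase p, (x - p')) := by
      funext x
      rw [hvc' x, hQ]
      simp only
      rw [Finset.mul_prod_erase Pf (fun p' => x - p') hp]
    have h3 : DifferentiableAt ℂ (fun x : ℂ => ∏ p' ∈ Pf.erase p, (x - p')) p := by
      apply DifferentiableAt.fun_finsetProd
      intro i _
      exact (differentiableAt_id).sub_const i
    have h4 : HasDerivAt (fun x : ℂ => c * ((x - p) * ∏ p' ∈ Pf.erase p, (x - p')))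
        (c * (1 * (∏ p' ∈ Pf.erase p, (p - p')) + (p - p) *
          deriv (fun x : ℂ => ∏ p' ∈ Pf.erase p, (x - p')) p)) p :=
      (((hasDerivAt_id p).sub_const p).mul h3.hasDerivAt).const_mul c
    rw [h2, h4.deriv] at h1
    rw [sub_self, zero_mul, add_zero, one_mul] at h1
    exact h1
  have h0 : (0 : ℂ) ∈ Pf := by
    have := hL.zero
    rw [hPf] at this
    exact this
  have hc0 : c ≠ 0 := by
    intro h
    have := hder 0 h0
    rw [h, zero_mul] at this
    exact zero_ne_one this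
  have hcard : Pf.card < 2 := by
    by_contra h
    have h1 := hFLAG Pf (not_lt.mp h)
    have h2 : ∀ p ∈ Pf, (∏ p' ∈ Pf.erase p, (p - p'))⁻¹ = c := by
      intro p hp
      exact (eq_inv_of_mul_eq_one_left (hder p hp)).symm
    rw [Finset.sum_congr rfl h2, Finset.sum_const, nsmul_eq_mul] at h1
    rcases mul_eq_zero.mp h1 with h3 | h3
    · have : Pf.card = 0 := by exact_mod_cast h3
      omega
    · exact hc0 h3
  have hPf1 : Pf = {0} := by
    have h1 : Pf.card = 1 := by
      have := Finset.card_pos.mpr ⟨0, h0⟩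
      omega
    obtain ⟨a, ha⟩ := Finset.card_eq_one.mp h1
    rw [ha] at h0
    rw [ha, Finset.mem_singleton.mp h0]
  have hP1 : P = {0} := by rw [hPf, hPf1]; simp
  refine ⟨hP1, fun x hx => ?_⟩
  have hc1 := hder 0 h0
  rw [hPf1] at hc1
  have hc2 : c = 1 := by simpa using hc1
  have hvx : v x = x := by
    rw [hvc' x, hQ, hc2]
    simp only
    rw [hPf1]
    simp
  have h1 := hvB x (by rw [hP1]; exact hx)
  rw [hvx] at h1
  rw [eq_div_iff (pow_ne_zero 2 hx), mul_comm]
  exact h1

end V3
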