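import Pool.Agent.helper10.V3.SpecL

/-! Project v3: module GBD: bound of the coefficients of simple poles. -/

set_option autoImplicit false

open Complex Metric Set Filter Topology MeasureTheory MPS

noncomputable section

namespace V3S

/-- the coefficient `g i` in terms of the natural map at the pole. -/
theorem GBD_coef {k : ℕ} [NeZero k] (b g : ZMod k → ℂ) (hb : Function.Injective b) (i : ZMod k)
    (ψ : ℂ → ℂ) (r : ℝ) (h : PN b g i ψ r) :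
    g i * deriv ψ 0 ^ 2 = - deriv (deriv ψ) 0 := by
  have hr := h.pos
  have hB : ball (0 : ℂ) r ∈ 𝓝 (0 : ℂ) := ball_mem_nhds _ hr
  set φ : ℂ → ℂ := dslope ψ 0 with hφ
  have hφd : DifferentiableOn ℂ φ (ball 0 r) := (Complex.differentiableOn_dslope hB).mpr h.diff
  have hφ0 : φ 0 = deriv ψ 0 := dslope_same ψ 0
  have hψφ : ∀ u, ψ u = b i + u * φ u := by
    intro u
    have h1 : (u - 0) • dslope ψ 0 u = ψ u - ψ 0 := sub_smul_dslope ψ 0 u
    rw [sub_zero, smul_eq_mul, h.val] at h1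
    rw [hφ, h1]; ring
  have hφa : AnalyticAt ℂ φ 0 := hφd.analyticAt hB
  have hψa : AnalyticAt ℂ ψ 0 := h.diff.analyticAt hB
  have hφ'a : AnalyticAt ℂ (deriv φ) 0 := hφa.deriv
  have hψ'a : AnalyticAt ℂ (deriv ψ) 0 := hψa.deriv
  -- the first derivative
  have hder : ∀ᶠ u in 𝓝 (0 : ℂ), deriv ψ u = φ u + u * deriv φ u := by
    filter_upwards [hB] with u hu
    have h1 : DifferentiableAt ℂ φ u := hφd.differentiableAt (isOpen_ball.mem_nhds hu)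
    have h2 : HasDerivAt (fun u => b i + u * φ u) (1 * φ u + u * deriv φ u) u :=
      ((hasDerivAt_id u).mul h1.hasDerivAt).const_add (b i)
    have h3 : ψ = fun u => b i + u * φ u := funext hψφ
    rw [h3, h2.deriv]; ring
  have hsec : deriv (deriv ψ) 0 = 2 * deriv φ 0 := by
    have h1 : HasDerivAt (fun u => φ u + u * deriv φ u)
        (deriv φ 0 + (1 * deriv φ 0 + 0 * deriv (deriv φ) 0)) 0 :=
      hφa.differentiableAt.hasDerivAt.add
        ((hasDerivAt_id (0 : ℂ)).mul hφ'a.differentiableAt.hasDerivAt)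
    have h2 : deriv ψ =ᶠ[𝓝 0] fun u => φ u + u * deriv φ u := hder
    rw [h2.deriv_eq, h1.deriv]; ring
  -- the regular part
  set H : ℂ → ℂ := fun z => ∑ j ∈ Finset.univ.erase i, (1 / (z - b j) ^ 2 + g j / (z - b j)) with hH
  have hBB : ∀ z, BB b g z = 1 / (z - b i) ^ 2 + g i / (z - b i) + H z := by
    intro z
    rw [BB, hH, ← Finset.add_sum_erase _ _ (Finset.mem_univ i)]
  have hHd : DifferentiableAt ℂ H (b i) := by
    rw [hH]
    apply DifferentiableAt.fun_sum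
    intro j hj
    have hne : b i - b j ≠ 0 := sub_ne_zero.mpr (fun e => (Finset.ne_of_mem_erase hj) (hb e).symm)
    have h1 : DifferentiableAt ℂ (fun z : ℂ => z - b j) (b i) := differentiableAt_id.sub_const _
    exact ((differentiableAt_const _).div (h1.pow 2) (pow_ne_zero 2 hne)).add
      ((differentiableAt_const _).div h1 hne)
  have hHψ : DifferentiableAt ℂ (fun u => H (ψ u)) 0 := by
    have h1 : DifferentiableAt ℂ H (ψ 0) := by rw [h.val]; exact hHd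
    exact h1.comp (0 : ℂ) hψa.differentiableAt
  -- the equation
  have heq : (fun u => deriv ψ u ^ 2 * (1 + g i * (u * φ u) + (u * φ u) ^ 2 * H (ψ u)))
      =ᶠ[𝓝 0] fun u => φ u ^ 2 := by
    filter_upwards [hB] with u hu
    by_cases hu0 : u = 0
    · subst hu0
      simp [hφ0]
    · have h1 := h.eq u hu hu0
      have h2 : ψ u - b i = u * φ u := by rw [hψφ u]; ring
      have h3 : u * φ u ≠ 0 := by
        rw [← h2]; exact sub_ne_zero.mpr (h.av u hu hu0 i)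
      have h4 : φ u ≠ 0 := fun e => h3 (by rw [e, mul_zero])
      rw [hBB, h2] at h1
      have h5 : u ^ 2 * deriv ψ u ^ 2 * (1 + g i * (u * φ u) + (u * φ u) ^ 2 * H (ψ u)) =
          (u * φ u) ^ 2 := by
        have h6 : (1 + g i * (u * φ u) + (u * φ u) ^ 2 * H (ψ u)) =
            (u * φ u) ^ 2 * (1 / (u * φ u) ^ 2 + g i / (u * φ u) + H (ψ u)) := by
          field_simp
        rw [h6]
        calc u ^ 2 * deriv ψ u ^ 2 * ((u * φ u) ^ 2 * (1 / (u * φ u) ^ 2 + g i / (u * φ u) + H (ψ u)))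
            = (u * φ u) ^ 2 * (u ^ 2 * deriv ψ u ^ 2 * (1 / (u * φ u) ^ 2 + g i / (u * φ u) + H (ψ u))) := by
              ring
          _ = (u * φ u) ^ 2 := by rw [h1, mul_one]
      have h7 : u ^ 2 * (deriv ψ u ^ 2 * (1 + g i * (u * φ u) + (u * φ u) ^ 2 * H (ψ u))) =
          u ^ 2 * φ u ^ 2 := by rw [← mul_assoc, h5]; ring
      exact mul_left_cancel₀ (pow_ne_zero 2 hu0) h7
  -- derivatives at zero
  have hd1 : HasDerivAt (fun u => u * φ u) (φ 0) 0 := by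
    have h1 := (hasDerivAt_id (0 : ℂ)).mul hφa.differentiableAt.hasDerivAt
    have h2 : (1 * φ 0 + 0 * deriv φ 0) = φ 0 := by ring
    have h3 : HasDerivAt (fun u => u * φ u) (1 * φ 0 + 0 * deriv φ 0) 0 := h1
    rwa [h2] at h3
  have hd2 : HasDerivAt (fun u => (u * φ u) ^ 2 * H (ψ u)) 0 0 := by
    have h1 := (hd1.pow 2).mul hHψ.hasDerivAt
    have h3 : HasDerivAt (fun u => (u * φ u) ^ 2 * H (ψ u))
      ((2 : ℕ) * (0 * φ 0) ^ (2 - 1) * φ 0 * H (ψ 0) + (0 * φ 0) ^ 2 * deriv (fun u => H (ψ u)) 0) 0 := h1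
    have h2 : ((2 : ℕ) * (0 * φ 0) ^ (2 - 1) * φ 0 * H (ψ 0) +
      (0 * φ 0) ^ 2 * deriv (fun u => H (ψ u)) 0 : ℂ) = 0 := by
      norm_num
    rwa [h2] at h3
  have hd3 : HasDerivAt (fun u => 1 + g i * (u * φ u) + (u * φ u) ^ 2 * H (ψ u)) (g i * φ 0) 0 := by
    have h1 := ((hd1.const_mul (g i)).const_add 1).add hd2
    have h3 : HasDerivAt (fun u => 1 + g i * (u * φ u) + (u * φ u) ^ 2 * H (ψ u)) (g i * φ 0 + 0) 0 := h1
    rwa [add_zero] at h3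
  have hd4 : HasDerivAt (fun u => deriv ψ u ^ 2 *
      (1 + g i * (u * φ u) + (u * φ u) ^ 2 * H (ψ u)))
      (2 * deriv ψ 0 * deriv (deriv ψ) 0 + deriv ψ 0 ^ 2 * (g i * φ 0)) 0 := by
    have h1 := (hψ'a.differentiableAt.hasDerivAt.pow 2).mul hd3
    have h3 : HasDerivAt (fun u => deriv ψ u ^ 2 *
      (1 + g i * (u * φ u) + (u * φ u) ^ 2 * H (ψ u)))
      ((2 : ℕ) * deriv ψ 0 ^ (2 - 1) * deriv (deriv ψ) 0 *
        (1 + g i * (0 * φ 0) + (0 * φ 0) ^ 2 * H (ψ 0)) + deriv ψ 0 ^ 2 * (g i * φ 0)) 0 := h1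
    have h2 : ((2 : ℕ) * deriv ψ 0 ^ (2 - 1) * deriv (deriv ψ) 0 *
        (1 + g i * (0 * φ 0) + (0 * φ 0) ^ 2 * H (ψ 0)) + deriv ψ 0 ^ 2 * (g i * φ 0) : ℂ) =
        2 * deriv ψ 0 * deriv (deriv ψ) 0 + deriv ψ 0 ^ 2 * (g i * φ 0) := by
      norm_num
    rwa [h2] at h3
  have hd5 : HasDerivAt (fun u => φ u ^ 2) (2 * φ 0 * deriv φ 0) 0 := by
    have h1 := hφa.differentiableAt.hasDerivAt.pow 2
    have h3 : HasDerivAt (fun u => φ u ^ 2) ((2 : ℕ) * φ 0 ^ (2 - 1) * deriv φ 0) 0 := h1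
    have h2 : ((2 : ℕ) * φ 0 ^ (2 - 1) * deriv φ 0 : ℂ) = 2 * φ 0 * deriv φ 0 := by norm_num
    rwa [h2] at h3
  have hfin : 2 * deriv ψ 0 * deriv (deriv ψ) 0 + deriv ψ 0 ^ 2 * (g i * φ 0) =
      2 * φ 0 * deriv φ 0 := by
    rw [← hd4.deriv, ← hd5.deriv]
    exact heq.deriv_eq
  rw [hφ0, hsec] at hfin
  rw [hsec]
  have ha := h.der
  have h8 : deriv ψ 0 * (g i * deriv ψ 0 ^ 2) = deriv ψ 0 * (-(2 * deriv φ 0)) := by
    linear_combination hfin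
  exact mul_left_cancel₀ ha h8

theorem GBD (hKO3 : V3.KO3_stmt) (hNI : MPS.NI_stmt) : GBD_stmt := by
  obtain ⟨C, hC1, hC⟩ := hKO3 (1 / 2) (by norm_num) (by norm_num)
  refine ⟨C, by linarith, ?_⟩
  intro n ra Cf D hD l
  have hpn : PN D.b D.g l (D.ψ l) 1 := (hD.mx l).pn
  have hinj : InjOn (D.ψ l) (ball 0 1) := hNI D.k D.b D.g l (D.ψ l) 1 hpn
  obtain ⟨h2, -⟩ := hC (D.ψ l) 0 1 one_pos hpn.diff hinj
  have h3 : iteratedDeriv 2 (D.ψ l) 0 = deriv (deriv (D.ψ l)) 0 := by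
    rw [iteratedDeriv_succ, iteratedDeriv_one]
  rw [h3, div_one] at h2
  have h4 := GBD_coef D.b D.g hD.cyc.inj l (D.ψ l) 1 hpn
  have ha : 0 < ‖deriv (D.ψ l) 0‖ := norm_pos_iff.mpr hpn.der
  have h5 : ‖D.g l‖ * ‖deriv (D.ψ l) 0‖ ^ 2 ≤ C * ‖deriv (D.ψ l) 0‖ := by
    rw [← norm_pow, ← norm_mul, h4, norm_neg]
    exact h2
  have h6 : ‖D.g l‖ * ‖deriv (D.ψ l) 0‖ ≤ C := by
    have h7 : (‖D.g l‖ * ‖deriv (D.ψ l) 0‖) * ‖deriv (D.ψ l) 0‖ ≤ C * ‖deriv (D.ψ l) 0‖ := by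
      nlinarith [h5]
    exact le_of_mul_le_mul_right h7 ha
  have h8 : ‖D.sg‖ ≤ ‖deriv (D.ψ l) 0‖ := hD.mini l
  rw [norm_mul]
  calc ‖D.sg‖ * ‖D.g l‖ ≤ ‖deriv (D.ψ l) 0‖ * ‖D.g l‖ :=
        mul_le_mul_of_nonneg_right h8 (norm_nonneg _)
    _ = ‖D.g l‖ * ‖deriv (D.ψ l) 0‖ := mul_comm _ _
    _ ≤ C := h6

end V3S
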